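import Mathlib
import Pool.Agent.W387.R.Stm

/-!
The subgroup `N` contains the colour differences and is normalised by the hat letters.
-/

set_option autoImplicit false

namespace Pool.Agent.W551.RA

open Pool.Agent.W387 Pool.Agent.W387.RA

/-- an equivalence relation that holds on the listed edges holds everywhere -/
def ConnT (T : List (Fin 8 × Fin 8)) : Prop :=
  ∀ E : Fin 8 → Fin 8 → Prop, (∀ i, E i i) → (∀ i j, E i j → E j i) →
    (∀ i j k, E i j → E j k → E i k) → (∀ t ∈ T, E t.1 t.2) → ∀ i j, E i j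

/-- the tree of the second and fourth colours -/
def TA : List (Fin 8 × Fin 8) := [(0,7),(2,7),(3,5),(1,5),(1,4),(2,6),(0,5)]

/-- the tree of the fourth and first colours -/
def TB : List (Fin 8 × Fin 8) := [(3,7),(2,4),(1,6),(1,7),(2,5),(0,6),(0,4)]

/-- the tree of the first and third colours -/
def TC : List (Fin 8 × Fin 8) := [(0,7),(1,5),(0,5),(3,4),(2,6),(1,4),(3,6)]

theorem connA : ConnT TA := by
  intro E hr hs ht h
  have h7 : E 0 7 := h (0,7) (by decide)
  have h2 : E 0 2 := ht _ _ _ h7 (hs _ _ (h (2,7) (by decide)))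
  have h6 : E 0 6 := ht _ _ _ h2 (h (2,6) (by decide))
  have h5 : E 0 5 := h (0,5) (by decide)
  have h3 : E 0 3 := ht _ _ _ h5 (hs _ _ (h (3,5) (by decide)))
  have h1 : E 0 1 := ht _ _ _ h5 (hs _ _ (h (1,5) (by decide)))
  have h4 : E 0 4 := ht _ _ _ h1 (h (1,4) (by decide))
  have r : ∀ i, E 0 i := by
    intro i
    fin_cases i
    · exact hr 0
    · exact h1
    · exact h2
    · exact h3
    · exact h4
    · exact h5
    · exact h6
    · exact h7
  intro i j
  exact ht _ _ _ (hs _ _ (r i)) (r j)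

theorem connB : ConnT TB := by
  intro E hr hs ht h
  have h6 : E 0 6 := h (0,6) (by decide)
  have h4 : E 0 4 := h (0,4) (by decide)
  have h1 : E 0 1 := ht _ _ _ h6 (hs _ _ (h (1,6) (by decide)))
  have h7 : E 0 7 := ht _ _ _ h1 (h (1,7) (by decide))
  have h3 : E 0 3 := ht _ _ _ h7 (hs _ _ (h (3,7) (by decide)))
  have h2 : E 0 2 := ht _ _ _ h4 (hs _ _ (h (2,4) (by decide)))
  have h5 : E 0 5 := ht _ _ _ h2 (h (2,5) (by decide))
  have r : ∀ i, E 0 i := by
    intro i
    fin_cases i
    · exact hr 0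
    · exact h1
    · exact h2
    · exact h3
    · exact h4
    · exact h5
    · exact h6
    · exact h7
  intro i j
  exact ht _ _ _ (hs _ _ (r i)) (r j)

theorem connC : ConnT TC := by
  intro E hr hs ht h
  have h7 : E 0 7 := h (0,7) (by decide)
  have h5 : E 0 5 := h (0,5) (by decide)
  have h1 : E 0 1 := ht _ _ _ h5 (hs _ _ (h (1,5) (by decide)))
  have h4 : E 0 4 := ht _ _ _ h1 (h (1,4) (by decide))
  have h3 : E 0 3 := ht _ _ _ h4 (hs _ _ (h (3,4) (by decide)))
  have h6 : E 0 6 := ht _ _ _ h3 (h (3,6) (by decide))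
  have h2 : E 0 2 := ht _ _ _ h6 (hs _ _ (h (2,6) (by decide)))
  have r : ∀ i, E 0 i := by
    intro i
    fin_cases i
    · exact hr 0
    · exact h1
    · exact h2
    · exact h3
    · exact h4
    · exact h5
    · exact h6
    · exact h7
  intro i j
  exact ht _ _ _ (hs _ _ (r i)) (r j)

/-- the letter of a colour -/
def le (c : Fin 4) (i : Fin 8) : Lt := ⟨8 * c.val + i.val, by omega⟩

/-- the left differences -/
def Lc (c : Fin 4) : Subgroup G :=
  Subgroup.closure {g | ∃ i j : Fin 8, g = gl (le c i) * (gl (le c j))⁻¹}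

/-- the right differences -/
def Rc (c : Fin 4) : Subgroup G :=
  Subgroup.closure {g | ∃ i j : Fin 8, g = (gl (le c i))⁻¹ * gl (le c j)}

theorem Lc_mem (c : Fin 4) (i j : Fin 8) : gl (le c i) * (gl (le c j))⁻¹ ∈ Lc c :=
  Subgroup.subset_closure ⟨i, j, rfl⟩

theorem Rc_mem (c : Fin 4) (i j : Fin 8) : (gl (le c i))⁻¹ * gl (le c j) ∈ Rc c :=
  Subgroup.subset_closure ⟨i, j, rfl⟩

theorem sq_one (a b c d : Lt) (h : (a, b, c, d) ∈ sqs) :
    gl a * (gl b)⁻¹ * gl c * (gl d)⁻¹ = 1 := by
  have h1 : pg relF (sqRel (a, b, c, d)) = 1 := by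
    apply PresentedGroup.one_of_mem
    unfold relF
    rw [Finset.mem_coe]
    apply Finset.mem_insert_of_mem
    rw [List.mem_toFinset]
    exact List.mem_map_of_mem h
  rw [← h1]
  simp [sqRel, gl, pg]

theorem gl3 : gl 3 = 1 := by
  apply PresentedGroup.one_of_mem
  unfold relF
  rw [Finset.mem_coe]
  exact Finset.mem_insert_self _ _

theorem trans (T : List (Fin 8 × Fin 8)) (hT : ConnT T) (a b : Fin 4)
    (h : ∀ t ∈ T, (le a t.2, le a t.1, le b t.2, le b t.1) ∈ sqs ∧
      (le a t.2, le b t.1, le b t.2, le a t.1) ∈ sqs) :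
    Lc a = Lc b ∧ Rc a = Rc b := by
  have h1 : ∀ t ∈ T, gl (le a t.2) * (gl (le a t.1))⁻¹ = gl (le b t.1) * (gl (le b t.2))⁻¹ := by
    intro t ht
    have := sq_one _ _ _ _ (h t ht).1
    have h2 := eq_inv_of_mul_eq_one_left
      (show (gl (le a t.2) * (gl (le a t.1))⁻¹) * (gl (le b t.2) * (gl (le b t.1))⁻¹) = 1 by
        rw [← this]; group)
    rw [h2]; group
  have h2 : ∀ t ∈ T, (gl (le a t.1))⁻¹ * gl (le a t.2) = (gl (le b t.2))⁻¹ * gl (le b t.1) := by
    intro t ht
    have := sq_one _ _ _ _ (h t ht).2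
    have h3 : gl (le a t.2) * (gl (le b t.1))⁻¹ * gl (le b t.2) = gl (le a t.1) := by
      have := mul_eq_one_iff_eq_inv.mp this
      simpa using this
    rw [← h3]; group
  refine ⟨le_antisymm ?_ ?_, le_antisymm ?_ ?_⟩
  · unfold Lc
    rw [Subgroup.closure_le]
    rintro g ⟨i, j, rfl⟩
    refine hT (fun i j => gl (le a i) * (gl (le a j))⁻¹ ∈ Lc b) ?_ ?_ ?_ ?_ i j
    · intro i; simp
    · intro i j hh
      have := Subgroup.inv_mem _ hh
      simpa using this
    · intro i j k h3 h4
      have := Subgroup.mul_mem _ h3 h4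
      simpa using this
    · intro t ht
      have h3 := h1 t ht
      have h4 := Subgroup.inv_mem _ (Lc_mem b t.1 t.2)
      rw [← h3] at h4
      simpa using h4
  · unfold Lc
    rw [Subgroup.closure_le]
    rintro g ⟨i, j, rfl⟩
    refine hT (fun i j => gl (le b i) * (gl (le b j))⁻¹ ∈ Lc a) ?_ ?_ ?_ ?_ i j
    · intro i; simp
    · intro i j hh
      have := Subgroup.inv_mem _ hh
      simpa using this
    · intro i j k h3 h4
      have := Subgroup.mul_mem _ h3 h4
      simpa using this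
    · intro t ht
      have h3 := h1 t ht
      have h4 := Lc_mem a t.2 t.1
      rw [h3] at h4
      exact h4
  · unfold Rc
    rw [Subgroup.closure_le]
    rintro g ⟨i, j, rfl⟩
    refine hT (fun i j => (gl (le a i))⁻¹ * (gl (le a j)) ∈ Rc b) ?_ ?_ ?_ ?_ i j
    · intro i; simp
    · intro i j hh
      have := Subgroup.inv_mem _ hh
      simpa using this
    · intro i j k h3 h4
      have := Subgroup.mul_mem _ h3 h4
      simpa [mul_assoc] using this
    · intro t ht
      have h3 := h2 t ht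
      have h4 := Rc_mem b t.2 t.1
      rw [← h3] at h4
      exact h4
  · unfold Rc
    rw [Subgroup.closure_le]
    rintro g ⟨i, j, rfl⟩
    refine hT (fun i j => (gl (le b i))⁻¹ * (gl (le b j)) ∈ Rc a) ?_ ?_ ?_ ?_ i j
    · intro i; simp
    · intro i j hh
      have := Subgroup.inv_mem _ hh
      simpa using this
    · intro i j k h3 h4
      have := Subgroup.mul_mem _ h3 h4
      simpa [mul_assoc] using this
    · intro t ht
      have h3 := h2 t ht
      have h4 := Subgroup.inv_mem _ (Rc_mem a t.1 t.2)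
      rw [h3] at h4
      simpa using h4

theorem p_mem (i : Fin 8) : gl (le 0 i) ∈ N := by
  have key : ∀ x : FreeGroup Lt, x ∈ NsF → pg relF x ∈ N := fun x hx =>
    Subgroup.subset_closure ⟨x, hx, rfl⟩
  have k3 : gl (le 0 3) ∈ N := by
    have : gl (le 0 3) = 1 := gl3
    rw [this]; exact Subgroup.one_mem _
  fin_cases i
  · exact key (FreeGroup.of 0) (by simp [NsF])
  · exact key (FreeGroup.of 1) (by simp [NsF])
  · exact key (FreeGroup.of 2) (by simp [NsF])
  · exact k3
  · exact key (FreeGroup.of 4) (by simp [NsF])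
  · exact key (FreeGroup.of 5) (by simp [NsF])
  · exact key (FreeGroup.of 6) (by simp [NsF])
  · exact key (FreeGroup.of 7) (by simp [NsF])

theorem N_le (H : Subgroup G) (h : ∀ i : Fin 8, gl (le 0 i) ∈ H) : N ≤ H := by
  unfold N subN
  rw [Subgroup.closure_le]
  rintro g ⟨x, hx, rfl⟩
  simp only [NsF, Finset.coe_insert, Finset.coe_singleton, Set.mem_insert_iff,
    Set.mem_singleton_iff] at hx
  rcases hx with rfl | rfl | rfl | rfl | rfl | rfl | rfl
  · exact h 0
  · exact h 1
  · exact h 2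
  · exact h 4
  · exact h 5
  · exact h 6
  · exact h 7

theorem Lc0 : Lc 0 = N := by
  apply le_antisymm
  · unfold Lc
    rw [Subgroup.closure_le]
    rintro g ⟨i, j, rfl⟩
    exact Subgroup.mul_mem _ (p_mem i) (Subgroup.inv_mem _ (p_mem j))
  · apply N_le
    intro i
    have h := Lc_mem 0 i 3
    have h3 : gl (le 0 3) = 1 := gl3
    rw [h3] at h
    simpa using h

theorem Rc0 : Rc 0 = N := by
  apply le_antisymm
  · unfold Rc
    rw [Subgroup.closure_le]
    rintro g ⟨i, j, rfl⟩
    exact Subgroup.mul_mem _ (Subgroup.inv_mem _ (p_mem i)) (p_mem j)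
  · apply N_le
    intro i
    have h := Rc_mem 0 3 i
    have h3 : gl (le 0 3) = 1 := gl3
    rw [h3] at h
    simpa using h

theorem tA : Lc 1 = Lc 3 ∧ Rc 1 = Rc 3 := trans TA connA 1 3 (by decide)

theorem tB : Lc 3 = Lc 0 ∧ Rc 3 = Rc 0 := trans TB connB 3 0 (by decide)

theorem tC : Lc 0 = Lc 2 ∧ Rc 0 = Rc 2 := trans TC connC 0 2 (by decide)

theorem LcN (c : Fin 4) : Lc c = N := by
  fin_cases c
  · exact Lc0
  · exact tA.1.trans (tB.1.trans Lc0)
  · exact tC.1.symm.trans Lc0
  · exact tB.1.trans Lc0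

theorem RcN (c : Fin 4) : Rc c = N := by
  fin_cases c
  · exact Rc0
  · exact tA.2.trans (tB.2.trans Rc0)
  · exact tC.2.symm.trans Rc0
  · exact tB.2.trans Rc0

theorem hat_le : ∀ c : Fin 4, ∃ k : Fin 8, hat c = le c k := by decide

theorem let_le : ∀ e : Lt, e.val < 32 → ∃ k : Fin 8, e = le (col e) k := by
  intro e he
  refine ⟨⟨e.val % 8, Nat.mod_lt _ (by norm_num)⟩, ?_⟩
  apply Fin.ext
  simp only [le, col, he, dif_pos]
  omega

/-- the differences of letters of the same colour lie in `N` -/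
theorem StmF1a : Pool.Agent.W387.RA.StmF1a := by
  intro e he
  obtain ⟨k, hk⟩ := let_le e he
  obtain ⟨l, hl⟩ := hat_le (col e)
  rw [hl]
  have := Lc_mem (col e) k l
  rw [← hk, LcN] at this
  exact this

theorem conj1 (c : Fin 4) (k : Fin 8) (n : G) (hn : n ∈ Rc c) :
    gl (le c k) * n * (gl (le c k))⁻¹ ∈ Lc c := by
  unfold Rc at hn
  induction hn using Subgroup.closure_induction with
  | mem x hx =>
    obtain ⟨i, j, rfl⟩ := hx
    have h1 := Subgroup.mul_mem _ (Lc_mem c k i) (Lc_mem c j k)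
    simpa [mul_assoc] using h1
  | one => simp
  | mul x y _ _ hx hy =>
    have h1 := Subgroup.mul_mem _ hx hy
    simpa [mul_assoc] using h1
  | inv x _ hx =>
    have h1 := Subgroup.inv_mem _ hx
    simpa [mul_assoc] using h1

theorem conj2 (c : Fin 4) (k : Fin 8) (n : G) (hn : n ∈ Lc c) :
    (gl (le c k))⁻¹ * n * gl (le c k) ∈ Rc c := by
  unfold Lc at hn
  induction hn using Subgroup.closure_induction with
  | mem x hx =>
    obtain ⟨i, j, rfl⟩ := hx
    have h1 := Subgroup.mul_mem _ (Rc_mem c k i) (Rc_mem c j k)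
    simpa [mul_assoc] using h1
  | one => simp
  | mul x y _ _ hx hy =>
    have h1 := Subgroup.mul_mem _ hx hy
    simpa [mul_assoc] using h1
  | inv x _ hx =>
    have h1 := Subgroup.inv_mem _ hx
    simpa [mul_assoc] using h1

/-- the hat letters normalise `N` -/
theorem StmF1b : Pool.Agent.W387.RA.StmF1b := by
  intro c n
  obtain ⟨l, hl⟩ := hat_le c
  rw [hl]
  constructor
  · intro hn
    have := conj1 c l n (by rw [RcN]; exact hn)
    rwa [LcN] at this
  · intro hn
    have h1 := conj2 c l _ (by rw [LcN]; exact hn)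
    rw [RcN] at h1
    have h2 : (gl (le c l))⁻¹ * (gl (le c l) * n * (gl (le c l))⁻¹) * gl (le c l) = n := by
      group
    rwa [h2] at h1

end Pool.Agent.W551.RA
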